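import Pool.Agent.H92.SF.LUT

set_option autoImplicit false

namespace Pool.Agent.H51.SFU

open MvPolynomial
open Pool.Agent.H84.SM (dp cr dt)
open Pool.Agent.H3.SF Pool.Agent.H92.SF

/-! ### The sum for `i = 0` -/

theorem ss0 (δ j0 m g n : ℕ) :
    SS δ j0 m 3 1 g n 0 0 ≤ δ * (m * nA n + (2 * j0 * n + 1) * nC n) := by
  unfold SS nA nC
  simp only [Nat.mul_zero, Nat.not_lt_zero, if_false, Nat.sub_zero]
  push_cast
  rw [Finset.mul_sum, Finset.mul_sum, ← Finset.sum_add_distrib, Finset.mul_sum]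
  refine Finset.sum_le_sum (fun s _ => ?_)
  have h1 : ((n - 3 * s : ℕ) : ℤ) + 1 = ∑ b ∈ Finset.range (n - 3 * s + 1), (1 : ℤ) := by
    simp
  rw [h1, Finset.mul_sum, Finset.mul_sum, ← Finset.sum_add_distrib, Finset.mul_sum]
  refine Finset.sum_le_sum (fun b _ => ?_)
  refine max_le (by positivity) (le_of_eq ?_)
  ring

/-! ### The sums for `i = r + 1` -/

theorem ssi (δ j0 m g g0 n r : ℕ) (hδ : 1 ≤ δ) (hg0 : g0 ≤ g) (hg0m : g0 ≤ m)
    (h : 3 * (r + 1) ≤ n) :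
    SS δ j0 m 3 1 g n (r + 1) (-(2 * n * j0 + 1 + ((m : ℤ) - 3) * r)) ≤
      δ * (m * nA (n - 3 * (r + 1)) + (m + 3 * r) * nC (n - 3 * (r + 1))) -
        (r + 1) * g0 * (if 6 * (r + 1) ≤ n then nC (n - 6 * (r + 1)) else 0 : ℕ) := by
  set N := n - 3 * (r + 1) with hN
  have h1 : ∀ s b : ℕ, max 0 ((δ : ℤ) * ((-(2 * n * j0 + 1 + ((m : ℤ) - 3) * r)) +
      m * ((s : ℤ) + b) + ((r + 1 : ℕ) : ℤ) * m * (((3 : ℕ) : ℤ) - 2 * ((1 : ℕ) : ℤ)) +
      2 * j0 * n + 1) - ((r + 1 : ℕ) : ℤ) * g) ≤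
      δ * (m * ((s : ℤ) + b) + (m + 3 * r)) - (r + 1) * g0 * (if r + 1 ≤ s then 1 else 0) := by
    intro s b
    have e1 : (δ : ℤ) * ((-(2 * n * j0 + 1 + ((m : ℤ) - 3) * r)) +
      m * ((s : ℤ) + b) + ((r + 1 : ℕ) : ℤ) * m * (((3 : ℕ) : ℤ) - 2 * ((1 : ℕ) : ℤ)) +
      2 * j0 * n + 1) = δ * (m * ((s : ℤ) + b) + (m + 3 * r)) := by
      push_cast
      ring
    rw [e1]
    have hX : (0 : ℤ) ≤ δ * (m * ((s : ℤ) + b) + (m + 3 * r)) := by positivity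
    have hg : ((r + 1 : ℕ) : ℤ) * g0 ≤ ((r + 1 : ℕ) : ℤ) * g :=
      mul_le_mul_of_nonneg_left (by exact_mod_cast hg0) (by positivity)
    have hg1 : (0 : ℤ) ≤ ((r + 1 : ℕ) : ℤ) * g := by positivity
    have e2 : ((r : ℤ) + 1) = ((r + 1 : ℕ) : ℤ) := by push_cast; ring
    rw [e2]
    split_ifs with hs
    · have h2 : ((r + 1 : ℕ) : ℤ) * g0 ≤ δ * (m * ((s : ℤ) + b) + (m + 3 * r)) := by
        have h3 : ((r + 1 : ℕ) : ℤ) * g0 ≤ (s : ℤ) * m := by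
          have : (r + 1) * g0 ≤ s * m := Nat.mul_le_mul hs hg0m
          exact_mod_cast this
        have h4 : (s : ℤ) * m ≤ 1 * (m * ((s : ℤ) + b) + (m + 3 * r)) := by
          have : (0 : ℤ) ≤ m * b + (m + 3 * r) := by positivity
          linarith
        have h5 : (1 : ℤ) * (m * ((s : ℤ) + b) + (m + 3 * r)) ≤
            δ * (m * ((s : ℤ) + b) + (m + 3 * r)) :=
          mul_le_mul_of_nonneg_right (by exact_mod_cast hδ) (by positivity)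
        linarith
      refine max_le (by linarith) (by linarith)
    · refine max_le (by linarith) (by linarith)
  have h2 : SS δ j0 m 3 1 g n (r + 1) (-(2 * n * j0 + 1 + ((m : ℤ) - 3) * r)) ≤
      ∑ s ∈ Finset.range (N / 3 + 1), ∑ b ∈ Finset.range (N - 3 * s + 1),
        ((δ : ℤ) * (m * ((s : ℤ) + b) + (m + 3 * r)) -
          (r + 1) * g0 * (if r + 1 ≤ s then 1 else 0)) := by
    unfold SS
    rw [if_neg (by omega), ← hN]
    exact Finset.sum_le_sum (fun s _ => Finset.sum_le_sum (fun b _ => h1 s b))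
  refine h2.trans (le_of_eq ?_)
  have e3 : ∑ s ∈ Finset.range (N / 3 + 1), ∑ b ∈ Finset.range (N - 3 * s + 1),
        ((δ : ℤ) * (m * ((s : ℤ) + b) + (m + 3 * r)) -
          (r + 1) * g0 * (if r + 1 ≤ s then 1 else 0)) =
      δ * (m * (∑ s ∈ Finset.range (N / 3 + 1), ∑ b ∈ Finset.range (N - 3 * s + 1),
        ((s : ℤ) + b)) + (m + 3 * r) * ∑ s ∈ Finset.range (N / 3 + 1),
          ((N - 3 * s : ℕ) + 1 : ℤ)) - (r + 1) * g0 * ∑ s ∈ Finset.range (N / 3 + 1),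
          (if r + 1 ≤ s then ((N - 3 * s : ℕ) + 1 : ℤ) else 0) := by
    rw [Finset.mul_sum, Finset.mul_sum, ← Finset.sum_add_distrib, Finset.mul_sum, Finset.mul_sum,
      ← Finset.sum_sub_distrib]
    refine Finset.sum_congr rfl (fun s _ => ?_)
    rw [Finset.sum_sub_distrib, ← Finset.mul_sum, Finset.sum_add_distrib, ← Finset.mul_sum]
    simp only [Finset.sum_const, Finset.card_range, nsmul_eq_mul]
    split_ifs <;> push_cast <;> ring
  have e4 : ∑ s ∈ Finset.range (N / 3 + 1),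
      (if r + 1 ≤ s then ((N - 3 * s : ℕ) + 1 : ℤ) else 0) =
      ((if 6 * (r + 1) ≤ n then nC (n - 6 * (r + 1)) else 0 : ℕ) : ℤ) := by
    split_ifs with h6
    · have h7 : N / 3 + 1 = (r + 1) + ((n - 6 * (r + 1)) / 3 + 1) := by omega
      rw [h7, Finset.sum_range_add, Finset.sum_eq_zero (fun s hs => by
        rw [if_neg (by
          have := Finset.mem_range.mp hs
          omega)]), zero_add]
      unfold nC
      push_cast
      refine Finset.sum_congr rfl (fun s _ => ?_)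
      rw [if_pos (by omega)]
      have h8 : N - 3 * (r + 1 + s) = n - 6 * (r + 1) - 3 * s := by omega
      rw [h8]
    · rw [Finset.sum_eq_zero]
      · simp
      · intro s hs
        rw [if_neg (by
          have := Finset.mem_range.mp hs
          omega)]
  rw [e3, e4]
  unfold nA nC
  push_cast
  ring

/-! ### Sums of powers -/

theorem sum3 (n : ℝ) (R : ℕ) (hR : 3 * (R : ℝ) ≤ n) :
    12 * ∑ r ∈ Finset.range R, (n - 3 * r) ^ 3 + (n + 3 - 3 * R) ^ 4 ≤ (n + 3) ^ 4 := by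
  induction R with
  | zero => simp
  | succ R ih =>
    push_cast at hR
    have h1 := ih (by linarith)
    rw [Finset.sum_range_succ]
    have hy : 0 ≤ n - 3 * (R : ℝ) := by linarith
    have h2 : 12 * (n - 3 * (R : ℝ)) ^ 3 + (n - 3 * (R : ℝ)) ^ 4 ≤ (n + 3 - 3 * (R : ℝ)) ^ 4 := by
      have e : n + 3 - 3 * (R : ℝ) = (n - 3 * (R : ℝ)) + 3 := by ring
      rw [e]
      nlinarith [pow_nonneg hy 2, pow_nonneg hy 3]
    push_cast
    have e2 : n + 3 - 3 * ((R : ℝ) + 1) = n - 3 * (R : ℝ) := by ring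
    rw [e2]
    linarith

theorem sum2 (n : ℝ) (R : ℕ) (hR : 3 * (R : ℝ) ≤ n) :
    9 * ∑ r ∈ Finset.range R, (n - 3 * r) ^ 2 + (n + 3 - 3 * R) ^ 3 ≤ (n + 3) ^ 3 := by
  induction R with
  | zero => simp
  | succ R ih =>
    push_cast at hR
    have h1 := ih (by linarith)
    rw [Finset.sum_range_succ]
    have hy : 0 ≤ n - 3 * (R : ℝ) := by linarith
    have h2 : 9 * (n - 3 * (R : ℝ)) ^ 2 + (n - 3 * (R : ℝ)) ^ 3 ≤ (n + 3 - 3 * (R : ℝ)) ^ 3 := by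
      have e : n + 3 - 3 * (R : ℝ) = (n - 3 * (R : ℝ)) + 3 := by ring
      rw [e]
      nlinarith [pow_nonneg hy 2, pow_nonneg hy 3]
    push_cast
    have e2 : n + 3 - 3 * ((R : ℝ) + 1) = n - 3 * (R : ℝ) := by ring
    rw [e2]
    linarith

theorem sum12 (n : ℝ) (R : ℕ) (hR : 3 * (R : ℝ) ≤ n) :
    108 * ∑ r ∈ Finset.range R, (r : ℝ) * (n - 3 * r) ^ 2 +
      (4 * (n + 3) * (n + 3 - 3 * R) ^ 3 - 3 * (n + 3 - 3 * R) ^ 4) ≤ (n + 3) ^ 4 := by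
  induction R with
  | zero =>
    simp
    ring_nf
    exact le_rfl
  | succ R ih =>
    push_cast at hR
    have h1 := ih (by linarith)
    rw [Finset.sum_range_succ]
    have hy : 0 ≤ n - 3 * (R : ℝ) := by linarith
    obtain ⟨y, hyd⟩ : ∃ y, y = n - 3 * (R : ℝ) := ⟨_, rfl⟩
    have hR0 : (0 : ℝ) ≤ R := Nat.cast_nonneg R
    have e1 : n + 3 - 3 * (R : ℝ) = y + 3 := by rw [hyd]; ring
    have e2 : n + 3 - 3 * (((R + 1 : ℕ) : ℝ)) = y := by rw [hyd]; push_cast; ring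
    have e3 : n = y + 3 * (R : ℝ) := by rw [hyd]; ring
    rw [e1] at h1
    rw [e2, ← hyd]
    rw [← hyd] at hy
    have h2 : 108 * ((R : ℝ) * y ^ 2) + (4 * (n + 3) * y ^ 3 - 3 * y ^ 4) ≤
        4 * (n + 3) * (y + 3) ^ 3 - 3 * (y + 3) ^ 4 := by
      rw [e3]
      have h3 : 0 ≤ (R : ℝ) * y := mul_nonneg hR0 hy
      nlinarith [pow_nonneg hy 2, pow_nonneg hy 3]
    linarith

theorem sum1 (N : ℕ) : (N : ℝ) ^ 2 ≤ 2 * ∑ r ∈ Finset.range N, ((r : ℝ) + 1) := by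
  induction N with
  | zero => simp
  | succ N ih =>
    rw [Finset.sum_range_succ]
    push_cast
    have : (0 : ℝ) ≤ N := Nat.cast_nonneg N
    nlinarith

/-! ### The final inequality -/

theorem fin_ineq (δ j0 q m n g0 N0 : ℝ) (hδ : 1 ≤ δ) (hj : 0 ≤ j0) (hq : 1 ≤ q)
    (hm : 100000 * q * (2 * δ * (2 * j0 + 1) ^ 2 + δ + 3) ≤ m)
    (hn : 30000000 * (q * (δ + 1)) ≤ n) (hg : m ≤ q * g0) (hN : n / 12 - 1 ≤ N0) :
    (2 * n * j0 + 1) * (δ * (m * (2 * (n + 3) ^ 3 / 27) + (2 * j0 * n + 1) * ((n + 3) ^ 2 / 6))) +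
      (m - 3) * (δ * (m * (n + 3) ^ 4 / 162 + m * (n + 3) ^ 3 / 54 + (n + 3) ^ 4 / 216) -
        3 * g0 * N0 ^ 4) ≤
      δ * m ^ 2 * n ^ 4 / 162 - m ^ 2 * n ^ 4 / (8100 * q) := by
  have hq0 : 0 < q := by linarith
  have hδ0 : 0 < δ := by linarith
  have hqδ : 1 ≤ q * (δ + 1) := by nlinarith
  have hn1 : 30000000 ≤ n := by nlinarith
  have hn0 : 0 < n := by linarith
  have hm1 : 100000 ≤ m := by
    have h1 : 1 ≤ 2 * δ * (2 * j0 + 1) ^ 2 + δ + 3 := by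
      have : 0 ≤ 2 * δ * (2 * j0 + 1) ^ 2 := by positivity
      linarith
    nlinarith
  have hm0 : 0 < m := by linarith
  obtain ⟨η, hη⟩ : ∃ η : ℝ, η = 1 / (100000 * (q * (δ + 1))) := ⟨_, rfl⟩
  have hη0 : 0 < η := by rw [hη]; positivity
  have hηm : η * (q * (δ + 1)) * 100000 = 1 := by
    rw [hη]
    field_simp
  have hη1 : η ≤ 1 := by nlinarith
  have hηn : 300 ≤ η * n := by
    have h1 : η * (30000000 * (q * (δ + 1))) ≤ η * n := mul_le_mul_of_nonneg_left hn hη0.le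
    linarith
  have p3 : 0 < n ^ 3 := by positivity
  have p4 : 0 < n ^ 4 := by positivity
  -- powers of `n + 3`
  have a2 : (n + 3) ^ 2 ≤ 4 * n ^ 2 := by nlinarith
  have a3 : (n + 3) ^ 3 ≤ 8 * n ^ 3 := by
    calc (n + 3) ^ 3 ≤ (2 * n) ^ 3 := pow_le_pow_left₀ (by linarith) (by linarith) 3
      _ = 8 * n ^ 3 := by ring
  have hη4 : 300 * n ^ 3 ≤ η * n ^ 4 := by
    have : 300 * n ^ 3 ≤ (η * n) * n ^ 3 := mul_le_mul_of_nonneg_right hηn p3.le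
    linarith [show (η * n) * n ^ 3 = η * n ^ 4 by ring]
  have a4 : (n + 3) ^ 4 ≤ (1 + η) * n ^ 4 := by
    have h1 : (n + 3) ^ 4 = n ^ 4 + 12 * n ^ 3 + 54 * n ^ 2 + 108 * n + 81 := by ring
    have h2 : n ^ 2 ≤ n ^ 3 := by nlinarith [pow_pos hn0 2]
    have h3 : n ≤ n ^ 3 := by nlinarith [pow_pos hn0 2]
    have h4 : 1 ≤ n ^ 3 := by linarith
    rw [h1]
    linarith
  have a5 : (1 - η) * n ^ 4 ≤ 20736 * N0 ^ 4 := by
    have h1 : (n / 12 - 1) ^ 4 ≤ N0 ^ 4 := pow_le_pow_left₀ (by linarith) hN 4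
    have h2 : 20736 * (n / 12 - 1) ^ 4 = n ^ 4 - 48 * n ^ 3 + 864 * n ^ 2 - 6912 * n + 20736 := by
      ring
    have h3 : 6912 * n ≤ 864 * n ^ 2 := by nlinarith
    linarith
  -- first part
  have b1 : (2 * n * j0 + 1) ≤ (2 * j0 + 1) * n := by nlinarith
  have b1' : (2 * j0 * n + 1) ≤ (2 * j0 + 1) * n := by nlinarith
  have hJ : 0 ≤ (2 * j0 + 1) := by linarith
  have b2 : m * (2 * (n + 3) ^ 3 / 27) + (2 * j0 * n + 1) * ((n + 3) ^ 2 / 6) ≤
      (2 * j0 + 1) * (2 * m) * n ^ 3 := by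
    have c1 : m * (2 * (n + 3) ^ 3 / 27) ≤ m * n ^ 3 := by
      refine mul_le_mul_of_nonneg_left ?_ hm0.le
      linarith
    have c2 : (2 * j0 * n + 1) * ((n + 3) ^ 2 / 6) ≤ ((2 * j0 + 1) * n) * (n ^ 2) := by
      refine mul_le_mul b1' (by linarith [sq_nonneg n]) (by positivity) (by positivity)
    have c3 : ((2 * j0 + 1) * n) * (n ^ 2) ≤ (2 * j0 + 1) * m * n ^ 3 := by
      have : (2 * j0 + 1) * n ^ 3 * 1 ≤ (2 * j0 + 1) * n ^ 3 * m :=
        mul_le_mul_of_nonneg_left (by linarith) (by positivity)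
      linarith [show ((2 * j0 + 1) * n) * (n ^ 2) = (2 * j0 + 1) * n ^ 3 * 1 by ring,
        show (2 * j0 + 1) * m * n ^ 3 = (2 * j0 + 1) * n ^ 3 * m by ring]
    have c4 : m * n ^ 3 ≤ (2 * j0 + 1) * m * n ^ 3 := by
      have : 1 * (m * n ^ 3) ≤ (2 * j0 + 1) * (m * n ^ 3) :=
        mul_le_mul_of_nonneg_right (by linarith) (by positivity)
      linarith [show (2 * j0 + 1) * m * n ^ 3 = (2 * j0 + 1) * (m * n ^ 3) by ring]
    linarith [show (2 * j0 + 1) * (2 * m) * n ^ 3 = (2 * j0 + 1) * m * n ^ 3 +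
      (2 * j0 + 1) * m * n ^ 3 by ring]
  have b3 : (2 * n * j0 + 1) * (δ * (m * (2 * (n + 3) ^ 3 / 27) +
      (2 * j0 * n + 1) * ((n + 3) ^ 2 / 6))) ≤ 2 * δ * (2 * j0 + 1) ^ 2 * m * n ^ 4 := by
    have c1 : (2 * n * j0 + 1) * (δ * (m * (2 * (n + 3) ^ 3 / 27) +
        (2 * j0 * n + 1) * ((n + 3) ^ 2 / 6))) ≤
        ((2 * j0 + 1) * n) * (δ * ((2 * j0 + 1) * (2 * m) * n ^ 3)) :=
      mul_le_mul b1 (mul_le_mul_of_nonneg_left b2 hδ0.le) (by positivity) (by positivity)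
    refine c1.trans (le_of_eq ?_)
    ring
  -- second part
  have b4 : m * (n + 3) ^ 4 / 162 + m * (n + 3) ^ 3 / 54 + (n + 3) ^ 4 / 216 ≤
      m * n ^ 4 / 162 + m * (η * n ^ 4) + n ^ 4 := by
    have c1 : m * (n + 3) ^ 4 ≤ m * ((1 + η) * n ^ 4) := mul_le_mul_of_nonneg_left a4 hm0.le
    have c2 : m * (n + 3) ^ 3 ≤ m * (η * n ^ 4) :=
      mul_le_mul_of_nonneg_left (by linarith) hm0.le
    have c3 : (1 + η) * n ^ 4 ≤ 2 * n ^ 4 := mul_le_mul_of_nonneg_right (by linarith) p4.le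
    have c4 : 0 ≤ m * (η * n ^ 4) := by positivity
    have c5 : m * ((1 + η) * n ^ 4) = m * n ^ 4 + m * (η * n ^ 4) := by ring
    linarith
  have b5 : (m - 3) * (δ * (m * (n + 3) ^ 4 / 162 + m * (n + 3) ^ 3 / 54 + (n + 3) ^ 4 / 216)) ≤
      δ * m ^ 2 * n ^ 4 / 162 + δ * η * m ^ 2 * n ^ 4 + δ * m * n ^ 4 := by
    have c1 : (m - 3) * (δ * (m * (n + 3) ^ 4 / 162 + m * (n + 3) ^ 3 / 54 +
        (n + 3) ^ 4 / 216)) ≤ m * (δ * (m * n ^ 4 / 162 + m * (η * n ^ 4) + n ^ 4)) :=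
      mul_le_mul (by linarith) (mul_le_mul_of_nonneg_left b4 hδ0.le) (by positivity) hm0.le
    refine c1.trans (le_of_eq ?_)
    ring
  -- third part
  have hg0 : m / q ≤ g0 := by
    rw [div_le_iff₀ hq0]
    linarith
  have b6 : (m - 3) * ((m / q) * ((1 - η) * n ^ 4)) ≤ (m - 3) * (g0 * (20736 * N0 ^ 4)) := by
    refine mul_le_mul_of_nonneg_left ?_ (by linarith)
    refine mul_le_mul hg0 a5 (mul_nonneg (by linarith) p4.le) ?_
    exact (div_nonneg hm0.le hq0.le).trans hg0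
  have b7 : (m ^ 2 - 3 * m - η * m ^ 2) * n ^ 4 / q ≤ (m - 3) * ((m / q) * ((1 - η) * n ^ 4)) := by
    have c1 : (m - 3) * ((m / q) * ((1 - η) * n ^ 4)) =
        (m ^ 2 - 3 * m - η * m ^ 2 + 3 * (η * m)) * n ^ 4 / q := by
      field_simp
      ring
    rw [c1]
    refine div_le_div_of_nonneg_right ?_ hq0.le
    refine mul_le_mul_of_nonneg_right ?_ p4.le
    have : 0 ≤ η * m := by positivity
    linarith
  have b8 : -((m - 3) * (3 * g0 * N0 ^ 4)) ≤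
      -(m ^ 2 * n ^ 4 / (6912 * q)) + (3 * m + η * m ^ 2) * n ^ 4 := by
    have c1 : (m - 3) * (g0 * (20736 * N0 ^ 4)) = 6912 * ((m - 3) * (3 * g0 * N0 ^ 4)) := by ring
    have c2 : (m ^ 2 - 3 * m - η * m ^ 2) * n ^ 4 / q =
        m ^ 2 * n ^ 4 / q - (3 * m + η * m ^ 2) * n ^ 4 / q := by ring
    have c3 : (3 * m + η * m ^ 2) * n ^ 4 / q ≤ (3 * m + η * m ^ 2) * n ^ 4 :=
      div_le_self (by positivity) hq
    have c4 : m ^ 2 * n ^ 4 / (6912 * q) = m ^ 2 * n ^ 4 / q / 6912 := by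
      rw [mul_comm, div_div, mul_comm q]
    have c5 : 0 ≤ (3 * m + η * m ^ 2) * n ^ 4 := by positivity
    rw [c4]
    linarith
  -- the end
  have hC : m * (2 * δ * (2 * j0 + 1) ^ 2 + δ + 3) ≤ m ^ 2 / q / 100000 := by
    rw [div_div, le_div_iff₀ (by positivity)]
    have : (100000 * q * (2 * δ * (2 * j0 + 1) ^ 2 + δ + 3)) * m ≤ m * m :=
      mul_le_mul_of_nonneg_right hm hm0.le
    linarith [show m * (2 * δ * (2 * j0 + 1) ^ 2 + δ + 3) * (q * 100000) =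
      (100000 * q * (2 * δ * (2 * j0 + 1) ^ 2 + δ + 3)) * m by ring, show m ^ 2 = m * m by ring]
  have hE : η * m ^ 2 * (δ + 1) = m ^ 2 / q / 100000 := by
    rw [hη]
    field_simp
  have hfin : m * (2 * δ * (2 * j0 + 1) ^ 2 + δ + 3) + η * m ^ 2 * (δ + 1) ≤
      m ^ 2 / q * (1 / 6912 - 1 / 8100) := by
    have : 0 < m ^ 2 / q := by positivity
    rw [hE]
    have h1 : m ^ 2 / q / 100000 = m ^ 2 / q * (1 / 100000) := by ring
    rw [h1] at hC ⊢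
    have h2 : m ^ 2 / q * (1 / 100000 + 1 / 100000) ≤ m ^ 2 / q * (1 / 6912 - 1 / 8100) :=
      mul_le_mul_of_nonneg_left (by norm_num) this.le
    rw [mul_add] at h2
    linarith only [hC, h2]
  have hfin2 := mul_le_mul_of_nonneg_right hfin p4.le
  have c6 : m ^ 2 / q * (1 / 6912 - 1 / 8100) * n ^ 4 =
      m ^ 2 * n ^ 4 / (6912 * q) - m ^ 2 * n ^ 4 / (8100 * q) := by
    field_simp
  rw [c6] at hfin2
  have c7 : (m * (2 * δ * (2 * j0 + 1) ^ 2 + δ + 3) + η * m ^ 2 * (δ + 1)) * n ^ 4 =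
      2 * δ * (2 * j0 + 1) ^ 2 * m * n ^ 4 + δ * m * n ^ 4 + δ * η * m ^ 2 * n ^ 4 +
        (3 * m + η * m ^ 2) * n ^ 4 := by ring
  rw [c7] at hfin2
  have c8 : (m - 3) * (δ * (m * (n + 3) ^ 4 / 162 + m * (n + 3) ^ 3 / 54 + (n + 3) ^ 4 / 216) -
        3 * g0 * N0 ^ 4) = (m - 3) * (δ * (m * (n + 3) ^ 4 / 162 + m * (n + 3) ^ 3 / 54 +
        (n + 3) ^ 4 / 216)) + -((m - 3) * (3 * g0 * N0 ^ 4)) := by ring
  rw [c8]
  linarith only [b3, b5, b8, hfin2]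

theorem pf_NUT (hNSA : T_NSA) : T_NUT := by
  intro δ j0 q hδ hq
  refine ⟨100000 * q * (2 * δ * (2 * j0 + 1) ^ 2 + δ + 3), fun m g hm hmg => ?_⟩
  refine ⟨30000000 * (q * (δ + 1)), fun n hn => ?_⟩
  obtain ⟨g0, hg0⟩ : ∃ g0, g0 = min g m := ⟨_, rfl⟩
  have hg0g : g0 ≤ g := hg0 ▸ min_le_left _ _
  have hg0m : g0 ≤ m := hg0 ▸ min_le_right _ _
  have hqg : m ≤ q * g0 := by
    rcases min_choice g m with h | h
    · rw [hg0, h]
      exact hmg
    · rw [hg0, h]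
      exact Nat.le_mul_of_pos_left m hq
  obtain ⟨N0, hN0⟩ : ∃ N0, N0 = n / 12 := ⟨_, rfl⟩
  have hm3 : 3 ≤ m := by
    have : 1 ≤ q * (2 * δ * (2 * j0 + 1) ^ 2 + δ + 3) := Nat.mul_pos hq (by positivity)
    have h2 : 100000 * 1 ≤ 100000 * (q * (2 * δ * (2 * j0 + 1) ^ 2 + δ + 3)) :=
      Nat.mul_le_mul_left _ this
    have h3 : 100000 * (q * (2 * δ * (2 * j0 + 1) ^ 2 + δ + 3)) =
      100000 * q * (2 * δ * (2 * j0 + 1) ^ 2 + δ + 3) := by ring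
    omega
  -- the terms
  have ht : ∀ r ∈ Finset.range (n / 3),
      ((SS δ j0 m 3 1 g n (r + 1) (-(2 * n * j0 + 1 + ((m : ℤ) - 3) * r)) : ℤ) : ℝ) ≤
      δ * (m * (2 * ((n : ℝ) - 3 * r) ^ 3 / 27) + (m + 3 * r) * (((n : ℝ) - 3 * r) ^ 2 / 6)) -
        ((r : ℝ) + 1) * g0 * (if r < N0 then 6 * (N0 : ℝ) ^ 2 else 0) := by
    intro r hr
    have hr3 : 3 * (r + 1) ≤ n := by
      have := Finset.mem_range.mp hr
      omega
    have h1 := ssi δ j0 m g g0 n r hδ hg0g hg0m hr3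
    have h1' : ((SS δ j0 m 3 1 g n (r + 1) (-(2 * n * j0 + 1 + ((m : ℤ) - 3) * r)) : ℤ) : ℝ) ≤
      δ * (m * nA (n - 3 * (r + 1)) + (m + 3 * r) * nC (n - 3 * (r + 1))) -
        (r + 1) * g0 * ((if 6 * (r + 1) ≤ n then nC (n - 6 * (r + 1)) else 0 : ℕ) : ℝ) := by
      exact_mod_cast h1
    refine h1'.trans ?_
    obtain ⟨n1, n2, _⟩ := hNSA (n - 3 * (r + 1))
    have e1 : (((n - 3 * (r + 1) : ℕ) : ℝ)) + 3 = (n : ℝ) - 3 * r := by
      rw [Nat.cast_sub hr3]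
      push_cast
      ring
    have n1' : (27 : ℝ) * nA (n - 3 * (r + 1)) ≤ 2 * ((n : ℝ) - 3 * r) ^ 3 := by
      rw [← e1]
      exact_mod_cast n1
    have n2' : (6 : ℝ) * nC (n - 3 * (r + 1)) ≤ ((n : ℝ) - 3 * r) ^ 2 := by
      rw [← e1]
      exact_mod_cast n2
    refine sub_le_sub ?_ ?_
    · refine mul_le_mul_of_nonneg_left ?_ (by positivity)
      refine add_le_add ?_ ?_
      · exact mul_le_mul_of_nonneg_left (by linarith) (by positivity)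
      · exact mul_le_mul_of_nonneg_left (by linarith) (by positivity)
    · refine mul_le_mul_of_nonneg_left ?_ (by positivity)
      split_ifs with h2 h3 h3
      · obtain ⟨_, _, n3⟩ := hNSA (n - 6 * (r + 1))
        have h4 : 6 * N0 ≤ n - 6 * (r + 1) := by omega
        have h5 : (6 * N0) ^ 2 ≤ 6 * nC (n - 6 * (r + 1)) := (Nat.pow_le_pow_left h4 2).trans n3
        have h6 : ((6 * N0 : ℕ) : ℝ) ^ 2 ≤ 6 * nC (n - 6 * (r + 1)) := by exact_mod_cast h5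
        push_cast at h6
        linarith [show (6 * (N0 : ℝ)) ^ 2 = 36 * (N0 : ℝ) ^ 2 by ring]
      · exfalso
        omega
      · positivity
      · simp
  have h0 := ss0 δ j0 m g n
  obtain ⟨n1, n2, _⟩ := hNSA n
  have h0' : ((SS δ j0 m 3 1 g n 0 0 : ℤ) : ℝ) ≤
      δ * (m * (2 * ((n : ℝ) + 3) ^ 3 / 27) + (2 * j0 * n + 1) * (((n : ℝ) + 3) ^ 2 / 6)) := by
    have h1 : ((SS δ j0 m 3 1 g n 0 0 : ℤ) : ℝ) ≤
        δ * (m * nA n + (2 * j0 * n + 1) * nC n) := by exact_mod_cast h0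
    have n1' : (27 : ℝ) * nA n ≤ 2 * ((n : ℝ) + 3) ^ 3 := by exact_mod_cast n1
    have n2' : (6 : ℝ) * nC n ≤ ((n : ℝ) + 3) ^ 2 := by exact_mod_cast n2
    refine h1.trans (mul_le_mul_of_nonneg_left (add_le_add ?_ ?_) (by positivity))
    · exact mul_le_mul_of_nonneg_left (by linarith) (by positivity)
    · exact mul_le_mul_of_nonneg_left (by linarith) (by positivity)
  -- the sum over `r`
  have hR : 3 * ((n / 3 : ℕ) : ℝ) ≤ n := by
    have : 3 * (n / 3) ≤ n := Nat.mul_div_le n 3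
    exact_mod_cast this
  have hs : ∑ r ∈ Finset.range (n / 3),
      ((SS δ j0 m 3 1 g n (r + 1) (-(2 * n * j0 + 1 + ((m : ℤ) - 3) * r)) : ℤ) : ℝ) ≤
      δ * (m * ((n : ℝ) + 3) ^ 4 / 162 + m * ((n : ℝ) + 3) ^ 3 / 54 + ((n : ℝ) + 3) ^ 4 / 216) -
        3 * g0 * (N0 : ℝ) ^ 4 := by
    refine (Finset.sum_le_sum ht).trans ?_
    rw [Finset.sum_sub_distrib]
    refine sub_le_sub ?_ ?_
    · rw [← Finset.mul_sum]
      refine mul_le_mul_of_nonneg_left ?_ (by positivity)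
      have s3 := sum3 n (n / 3) hR
      have s2 := sum2 n (n / 3) hR
      have s12 := sum12 n (n / 3) hR
      have hz : 0 ≤ (n : ℝ) + 3 - 3 * ((n / 3 : ℕ) : ℝ) := by linarith
      have hz4 := pow_nonneg hz 4
      have hz3 := pow_nonneg hz 3
      have hG : 0 ≤ 4 * ((n : ℝ) + 3) * ((n : ℝ) + 3 - 3 * ((n / 3 : ℕ) : ℝ)) ^ 3 -
          3 * ((n : ℝ) + 3 - 3 * ((n / 3 : ℕ) : ℝ)) ^ 4 := by
        have h1 : (n : ℝ) + 3 - 3 * ((n / 3 : ℕ) : ℝ) ≤ (n : ℝ) + 3 := by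
          have : (0 : ℝ) ≤ ((n / 3 : ℕ) : ℝ) := Nat.cast_nonneg _
          linarith
        have h2 : ((n : ℝ) + 3 - 3 * ((n / 3 : ℕ) : ℝ)) *
            ((n : ℝ) + 3 - 3 * ((n / 3 : ℕ) : ℝ)) ^ 3 ≤
            ((n : ℝ) + 3) * ((n : ℝ) + 3 - 3 * ((n / 3 : ℕ) : ℝ)) ^ 3 :=
          mul_le_mul_of_nonneg_right h1 hz3
        have h3 : 0 ≤ ((n : ℝ) + 3) * ((n : ℝ) + 3 - 3 * ((n / 3 : ℕ) : ℝ)) ^ 3 := by positivity
        have h4 : ((n : ℝ) + 3 - 3 * ((n / 3 : ℕ) : ℝ)) ^ 4 =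
            ((n : ℝ) + 3 - 3 * ((n / 3 : ℕ) : ℝ)) * ((n : ℝ) + 3 - 3 * ((n / 3 : ℕ) : ℝ)) ^ 3 := by
          ring
        linarith
      have e1 : ∑ r ∈ Finset.range (n / 3), ((m : ℝ) * (2 * ((n : ℝ) - 3 * r) ^ 3 / 27) +
          (m + 3 * r) * (((n : ℝ) - 3 * r) ^ 2 / 6)) =
          (m : ℝ) * (2 / 27) * ∑ r ∈ Finset.range (n / 3), ((n : ℝ) - 3 * r) ^ 3 +
          (m : ℝ) / 6 * ∑ r ∈ Finset.range (n / 3), ((n : ℝ) - 3 * r) ^ 2 +
          1 / 2 * ∑ r ∈ Finset.range (n / 3), (r : ℝ) * ((n : ℝ) - 3 * r) ^ 2 := by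
        rw [Finset.mul_sum, Finset.mul_sum, Finset.mul_sum, ← Finset.sum_add_distrib,
          ← Finset.sum_add_distrib]
        refine Finset.sum_congr rfl (fun r _ => ?_)
        ring
      rw [e1]
      have hm0 : (0 : ℝ) ≤ m := Nat.cast_nonneg m
      have t3 : (m : ℝ) * (2 / 27) * ∑ r ∈ Finset.range (n / 3), ((n : ℝ) - 3 * r) ^ 3 ≤
          (m : ℝ) * (2 / 27) * (((n : ℝ) + 3) ^ 4 / 12) :=
        mul_le_mul_of_nonneg_left (by linarith) (by positivity)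
      have t2 : (m : ℝ) / 6 * ∑ r ∈ Finset.range (n / 3), ((n : ℝ) - 3 * r) ^ 2 ≤
          (m : ℝ) / 6 * (((n : ℝ) + 3) ^ 3 / 9) :=
        mul_le_mul_of_nonneg_left (by linarith) (by positivity)
      have t12 : 1 / 2 * ∑ r ∈ Finset.range (n / 3), (r : ℝ) * ((n : ℝ) - 3 * r) ^ 2 ≤
          1 / 2 * (((n : ℝ) + 3) ^ 4 / 108) :=
        mul_le_mul_of_nonneg_left (by linarith) (by positivity)
      linarith
    · have h1 : ∑ r ∈ Finset.range N0, ((r : ℝ) + 1) * g0 * (6 * (N0 : ℝ) ^ 2) ≤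
          ∑ r ∈ Finset.range (n / 3), ((r : ℝ) + 1) * g0 *
            (if r < N0 then 6 * (N0 : ℝ) ^ 2 else 0) := by
        have h2 : Finset.range N0 ⊆ Finset.range (n / 3) := by
          intro x hx
          rw [Finset.mem_range] at hx ⊢
          omega
        refine le_trans (le_of_eq ?_) (Finset.sum_le_sum_of_subset_of_nonneg h2 (fun r _ _ => by
          split_ifs <;> positivity))
        refine Finset.sum_congr rfl (fun r hr => ?_)
        rw [if_pos (Finset.mem_range.mp hr)]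
      refine le_trans ?_ h1
      have h3 : ∑ r ∈ Finset.range N0, ((r : ℝ) + 1) * g0 * (6 * (N0 : ℝ) ^ 2) =
          3 * g0 * (N0 : ℝ) ^ 2 * (2 * ∑ r ∈ Finset.range N0, ((r : ℝ) + 1)) := by
        rw [Finset.mul_sum, Finset.mul_sum]
        refine Finset.sum_congr rfl (fun r _ => ?_)
        ring
      rw [h3]
      have h4 := mul_le_mul_of_nonneg_left (sum1 N0)
        (show (0 : ℝ) ≤ 3 * g0 * (N0 : ℝ) ^ 2 by positivity)
      refine le_trans (le_of_eq ?_) h4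
      ring
  -- total
  have hU : ((UU δ j0 m 3 1 g n : ℤ) : ℝ) ≤
      (2 * n * j0 + 1) * (δ * (m * (2 * ((n : ℝ) + 3) ^ 3 / 27) +
        (2 * j0 * n + 1) * (((n : ℝ) + 3) ^ 2 / 6))) +
      (m - 3) * (δ * (m * ((n : ℝ) + 3) ^ 4 / 162 + m * ((n : ℝ) + 3) ^ 3 / 54 +
        ((n : ℝ) + 3) ^ 4 / 216) - 3 * g0 * (N0 : ℝ) ^ 4) := by
    unfold UU
    push_cast
    rw [← Finset.mul_sum]
    have hm3' : (0 : ℝ) ≤ (m : ℝ) - 3 := by
      have : (3 : ℝ) ≤ m := by exact_mod_cast hm3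
      linarith
    have h5 := mul_le_mul_of_nonneg_left h0' (show (0 : ℝ) ≤ 2 * n * j0 + 1 by positivity)
    have h6 := mul_le_mul_of_nonneg_left hs hm3'
    exact add_le_add h5 h6
  have hN0' : (n : ℝ) / 12 - 1 ≤ N0 := by
    have h1 : n < 12 * (N0 + 1) := by omega
    have h2 : (n : ℝ) < 12 * (N0 + 1) := by exact_mod_cast h1
    linarith
  have hF := fin_ineq δ j0 q m n g0 N0 (by exact_mod_cast hδ) (Nat.cast_nonneg _)
    (by exact_mod_cast hq) (by exact_mod_cast hm) (by exact_mod_cast hn) (by exact_mod_cast hqg)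
    hN0'
  have hT := hU.trans hF
  have hδ' : (1 : ℝ) ≤ δ := by exact_mod_cast hδ
  have hq' : (1 : ℝ) ≤ q := by exact_mod_cast hq
  have hT2 := mul_le_mul_of_nonneg_left hT (show (0 : ℝ) ≤ 162 * (100 * δ * q) by positivity)
  have e9 : 162 * (100 * (δ : ℝ) * q) * (δ * m ^ 2 * n ^ 4 / 162 - m ^ 2 * n ^ 4 / (8100 * q)) =
      (100 * δ * q - 2) * (δ * m ^ 2 * n ^ 4) := by
    field_simp
    ring
  rw [e9] at hT2
  exact_mod_cast hT2

end Pool.Agent.H51.SFU
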