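import Pool.Agent.H92.SF.LUT

set_option autoImplicit false

namespace Pool.Agent.H51.SFU

open MvPolynomial
open Pool.Agent.H84.SM (dp cr dt)
open Pool.Agent.H3.SF Pool.Agent.H92.SF

section aux

variable {k F ι : Type} [Field k] [Field F] [Algebra k F]

/-! ### Weights -/

/-- `a` has weight `t` -/
def Wt (D : Derivation k F F) (d t : ℕ) (a : F) : Prop := D a = ((t * d : ℕ) : F) * a

theorem Wt.mul {D : Derivation k F F} {d t t' : ℕ} {a b : F} (ha : Wt D d t a) (hb : Wt D d t' b) :
    Wt D d (t + t') (a * b) := by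
  unfold Wt at *
  rw [D.leibniz, ha, hb, smul_eq_mul, smul_eq_mul]
  push_cast
  ring

theorem Wt.one (D : Derivation k F F) (d : ℕ) : Wt D d 0 1 := by
  unfold Wt
  simp

theorem Wt.pow {D : Derivation k F F} {d : ℕ} {a : F} (ha : Wt D d 1 a) (n : ℕ) :
    Wt D d n (a ^ n) := by
  induction n with
  | zero => simpa using Wt.one D d
  | succ n ih =>
    rw [pow_succ]
    exact ih.mul ha

theorem Wt.prod {α : Type} {D : Derivation k F F} {d : ℕ} (s : Finset α) (t : α → ℕ) (g : α → F)
    (h : ∀ x ∈ s, Wt D d (t x) (g x)) : Wt D d (∑ x ∈ s, t x) (∏ x ∈ s, g x) := by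
  classical
  induction s using Finset.induction_on with
  | empty => simpa using Wt.one D d
  | insert a s ha ih =>
    rw [Finset.sum_insert ha, Finset.prod_insert ha]
    exact (h a (Finset.mem_insert_self a s)).mul
      (ih (fun x hx => h x (Finset.mem_insert_of_mem hx)))

theorem Itg_prod {α : Type} (u : Fin 3 → F) (s : Finset α) (g : α → F)
    (h : ∀ x ∈ s, Itg k u (g x)) : Itg k u (∏ x ∈ s, g x) :=
  (Bb k u).prod_mem h

/-! ### Homogeneous polynomials -/

theorem mon_fun (a : ℕ) : ∀ s : Fin 3 →₀ ℕ, s.degree = a → ∃ l : Fin a → Fin 3,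
    ∀ v : Fin 3 → F, ∏ x, v (l x) = s.prod (fun i e => v i ^ e) := by
  induction a with
  | zero =>
    intro s hs
    have h0 : s = 0 := (Finsupp.degree_eq_zero_iff s).mp hs
    refine ⟨Fin.elim0, fun v => ?_⟩
    rw [h0]
    simp
  | succ a ih =>
    intro s hs
    have hne : s ≠ 0 := by
      rintro rfl
      simp at hs
    obtain ⟨i, hi⟩ : ∃ i, s i ≠ 0 := by
      by_contra hcon
      push Not at hcon
      exact hne (Finsupp.ext hcon)
    have hle : Finsupp.single i 1 ≤ s := by
      rw [Finsupp.single_le_iff]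
      omega
    obtain ⟨s', hs'⟩ : ∃ s', s = Finsupp.single i 1 + s' :=
      ⟨s - Finsupp.single i 1, (add_tsub_cancel_of_le hle).symm⟩
    have hd : s'.degree = a := by
      rw [hs', map_add, Finsupp.degree_single] at hs
      omega
    obtain ⟨l, hl⟩ := ih s' hd
    refine ⟨Fin.cons i l, fun v => ?_⟩
    rw [Fin.prod_univ_succ]
    simp only [Fin.cons_zero, Fin.cons_succ]
    have h5 : s.prod (fun i e => v i ^ e) = (Finsupp.single i 1).prod (fun i e => v i ^ e) *
        s'.prod (fun i e => v i ^ e) := by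
      rw [hs']
      exact Finsupp.prod_add_index' (fun _ => pow_zero _) (fun _ _ _ => pow_add _ _ _)
    have h6 : (Finsupp.single i 1).prod (fun i e => v i ^ e) = v i ^ 1 :=
      Finsupp.prod_single_index (pow_zero _)
    rw [hl v, h5, h6, pow_one]

/-- the span of the products of `a` of the `v i` -/
def Pm (k : Type) {F : Type} [Field k] [Field F] [Algebra k F] (v : Fin 3 → F) (a : ℕ) :
    Submodule k F :=
  Submodule.span k (Set.range (fun l : Fin a → Fin 3 => ∏ x, v (l x)))

theorem hom_mem (v : Fin 3 → F) (a : ℕ) (P : MvPolynomial (Fin 3) k) (hP : P.IsHomogeneous a) :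
    aeval v P ∈ Pm k v a := by
  rw [P.as_sum, map_sum]
  refine Submodule.sum_mem _ (fun s hs => ?_)
  have hd : s.degree = a := by
    have := hP (mem_support_iff.mp hs)
    rw [Finsupp.degree_eq_weight_one]
    exact this
  obtain ⟨l, hl⟩ := mon_fun (F := F) a s hd
  rw [aeval_monomial, ← hl v, ← Algebra.smul_def]
  exact Submodule.smul_mem _ _ (Submodule.subset_span ⟨l, rfl⟩)

/-! ### Reduction -/

open Classical in
theorem prod_upd [Fintype ι] (f : ι → F) (ν : ι → ℕ) (i : ι) (e : ℕ) :
    ∏ j, f j ^ (Function.update ν i e j) = f i ^ e * ∏ j ∈ Finset.univ.erase i, f j ^ ν j := by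
  rw [← Finset.mul_prod_erase Finset.univ _ (Finset.mem_univ i)]
  congr 1
  · simp
  · refine Finset.prod_congr rfl (fun j hj => ?_)
    rw [Function.update_of_ne (Finset.ne_of_mem_erase hj)]

open Classical in
theorem sum_upd [Fintype ι] (ν : ι → ℕ) (i : ι) (e : ℕ) :
    ∑ j, (Function.update ν i e j) = e + ∑ j ∈ Finset.univ.erase i, ν j := by
  rw [← Finset.add_sum_erase Finset.univ _ (Finset.mem_univ i)]
  congr 1
  · simp
  · refine Finset.sum_congr rfl (fun j hj => ?_)
    rw [Function.update_of_ne (Finset.ne_of_mem_erase hj)]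

theorem red [Fintype ι] (v : Fin 3 → F) (f : ι → F) (Nn : ι → ℕ)
    (A : ι → ℕ → MvPolynomial (Fin 3) k)
    (hA : ∀ i r, r < Nn i → (A i r).IsHomogeneous (Nn i - r))
    (hrel : ∀ i, f i ^ Nn i + ∑ r ∈ Finset.range (Nn i), aeval v (A i r) * f i ^ r = 0)
    (S : Submodule k F) (t : ℕ)
    (hS : ∀ (P : MvPolynomial (Fin 3) k) (ν : ι → ℕ) (a : ℕ), (∀ i, ν i < Nn i) →
      P.IsHomogeneous a → a + ∑ i, ν i = t → aeval v P * ∏ i, f i ^ ν i ∈ S) :
    ∀ (b : ℕ) (ν : ι → ℕ) (a : ℕ) (P : MvPolynomial (Fin 3) k), ∑ i, ν i = b →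
      P.IsHomogeneous a → a + b = t → aeval v P * ∏ i, f i ^ ν i ∈ S := by
  classical
  intro b
  induction b using Nat.strong_induction_on with
  | _ b ih =>
    intro ν a P hν hP hab
    by_cases h : ∀ i, ν i < Nn i
    · exact hS P ν a h hP (by rw [hν]; exact hab)
    · push Not at h
      obtain ⟨i, hi⟩ := h
      have e0 : ∏ j, f j ^ ν j = f i ^ ν i * ∏ j ∈ Finset.univ.erase i, f j ^ ν j := by
        rw [← Finset.mul_prod_erase Finset.univ _ (Finset.mem_univ i)]
      have s0 : ν i + ∑ j ∈ Finset.univ.erase i, ν j = b := by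
        rw [Finset.add_sum_erase Finset.univ _ (Finset.mem_univ i), hν]
      have e1 : f i ^ Nn i = - ∑ r ∈ Finset.range (Nn i), aeval v (A i r) * f i ^ r :=
        eq_neg_of_add_eq_zero_left (hrel i)
      have e2 : f i ^ ν i = f i ^ (ν i - Nn i) * f i ^ Nn i := by
        rw [← pow_add]
        congr 1
        omega
      have e3 : aeval v P * ∏ j, f j ^ ν j = - ∑ r ∈ Finset.range (Nn i),
          aeval v (P * A i r) * ∏ j, f j ^ (Function.update ν i (ν i - Nn i + r) j) := by
        rw [e0, e2, e1]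
        rw [mul_neg, neg_mul, mul_neg, Finset.mul_sum, Finset.sum_mul, Finset.mul_sum]
        congr 1
        refine Finset.sum_congr rfl (fun r _ => ?_)
        rw [prod_upd, map_mul, pow_add]
        ring
      rw [e3]
      refine Submodule.neg_mem _ (Submodule.sum_mem _ (fun r hr => ?_))
      have hr' := Finset.mem_range.mp hr
      refine ih (b - (Nn i - r)) (by omega) _ (a + (Nn i - r)) _ ?_ (hP.mul (hA i r hr')) (by omega)
      rw [sum_upd]
      omega

end aux

theorem pf_REB (hHMR : T_HMR) : T_REB := by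
  classical
  intro k F ι _ _ _ _ _ u v f D d hd hDv hDf hv hf hfv
  have := Fintype.ofFinite ι
  have h0 : ∀ i, ∃ (N : ℕ) (A : ℕ → MvPolynomial (Fin 3) k), 1 ≤ N ∧
      (∀ r, r < N → (A r).IsHomogeneous (N - r)) ∧
      f i ^ N + ∑ r ∈ Finset.range N, aeval v (A r) * f i ^ r = 0 := by
    intro i
    obtain ⟨N, A, h1, h2, h3⟩ := hHMR k F (Fin 3) v D d 1 (f i) hd hDv (by
      rw [mul_one]
      exact hDf i) (hfv i)
    exact ⟨N, A, h1, fun r hr => by simpa using h2 r hr, h3⟩
  choose Nn A hN1 hA hrel using h0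
  obtain ⟨c1, hc1⟩ : ∃ c1, c1 = ∑ i, (Nn i - 1) := ⟨_, rfl⟩
  refine ⟨c1, fun N β => ?_⟩
  -- the submodule
  let Q : Submodule k F :=
    { carrier := {x | ∃ z : (Fin N → Fin 3) → F,
        (∀ l, Itg k u (z l) ∧ D (z l) = ((c1 * d : ℕ) : F) * z l) ∧
        x = ∑ l, (∏ i, v (l i)) * z l}
      add_mem' := by
        rintro x y ⟨z, hz, rfl⟩ ⟨z', hz', rfl⟩
        refine ⟨fun l => z l + z' l, fun l => ⟨(Bb k u).add_mem (hz l).1 (hz' l).1, ?_⟩, ?_⟩
        · rw [map_add, (hz l).2, (hz' l).2, mul_add]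
        · rw [← Finset.sum_add_distrib]
          exact Finset.sum_congr rfl (fun l _ => by ring)
      zero_mem' := ⟨fun _ => 0, fun l => ⟨(Bb k u).zero_mem, by simp⟩, by simp⟩
      smul_mem' := by
        rintro c x ⟨z, hz, rfl⟩
        refine ⟨fun l => c • z l, fun l => ⟨(Bb k u).smul_mem (hz l).1 c, ?_⟩, ?_⟩
        · rw [Derivation.map_smul, (hz l).2, mul_smul_comm]
        · rw [Finset.smul_sum]
          exact Finset.sum_congr rfl (fun l _ => by rw [mul_smul_comm]) }
  have hgen : ∀ (l : Fin N → Fin 3) (y : F), Itg k u y → Wt D d c1 y →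
      (∏ i, v (l i)) * y ∈ Q := by
    intro l y hy hw
    refine ⟨Pi.single l y, fun l' => ?_, ?_⟩
    · rcases eq_or_ne l' l with rfl | h
      · rw [Pi.single_eq_same]
        exact ⟨hy, hw⟩
      · rw [Pi.single_eq_of_ne h]
        exact ⟨(Bb k u).zero_mem, by simp⟩
    · rw [Finset.sum_eq_single l]
      · rw [Pi.single_eq_same]
      · intro b _ hb
        rw [Pi.single_eq_of_ne hb, mul_zero]
      · intro h
        exact absurd (Finset.mem_univ _) h
  have hS : ∀ (P : MvPolynomial (Fin 3) k) (ν : ι → ℕ) (a : ℕ), (∀ i, ν i < Nn i) →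
      P.IsHomogeneous a → a + ∑ i, ν i = N + c1 → aeval v P * ∏ i, f i ^ ν i ∈ Q := by
    intro P ν a hν hP ha
    have hle : ∑ i, ν i ≤ c1 := by
      rw [hc1]
      exact Finset.sum_le_sum (fun i _ => by
        have := hν i
        omega)
    obtain ⟨e, he⟩ : ∃ e, e + ∑ i, ν i = c1 := ⟨c1 - ∑ i, ν i, by omega⟩
    obtain rfl : a = N + e := by omega
    have h1 := hom_mem v (N + e) P hP
    have h2 : Pm k v (N + e) ≤ Q.comap (LinearMap.mulRight k (∏ i, f i ^ ν i)) := by
      unfold Pm
      rw [Submodule.span_le]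
      rintro _ ⟨L, rfl⟩
      change (∏ x, v (L x)) * (∏ i, f i ^ ν i) ∈ Q
      rw [Fin.prod_univ_add, mul_assoc]
      refine hgen (fun i => L (Fin.castAdd e i)) _ ?_ ?_
      · refine (Bb k u).mul_mem (Itg_prod u _ _ (fun x _ => hv _)) (Itg_prod u _ _ (fun x _ => ?_))
        exact (Bb k u).pow_mem (hf x) _
      · rw [← he]
        refine Wt.mul ?_ ?_
        · have h3 := Wt.prod (D := D) (d := d) Finset.univ (fun _ : Fin e => 1)
            (fun x => v (L (Fin.natAdd N x))) (fun x _ => by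
              unfold Wt
              rw [one_mul]
              exact hDv _)
          simpa using h3
        · exact Wt.prod (D := D) (d := d) Finset.univ ν (fun i => f i ^ ν i) (fun i _ =>
            Wt.pow (by
              unfold Wt
              rw [one_mul]
              exact hDf _) _)
    exact h2 h1
  have hfib : ∏ i, f (β i) = ∏ j, f j ^ (Finset.univ.filter (fun i => β i = j)).card := by
    rw [← Finset.prod_fiberwise Finset.univ β (fun i => f (β i))]
    refine Finset.prod_congr rfl (fun j _ => ?_)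
    rw [Finset.prod_congr rfl (fun i hi => by rw [(Finset.mem_filter.mp hi).2]),
      Finset.prod_const]
  have hsum : ∑ j, (Finset.univ.filter (fun i => β i = j)).card = N + c1 := by
    have h7 := Finset.card_eq_sum_card_fiberwise (f := β) (s := (Finset.univ : Finset (Fin (N + c1))))
      (t := (Finset.univ : Finset ι)) (fun i _ => Finset.mem_coe.mpr (Finset.mem_univ _))
    rw [Finset.card_univ, Fintype.card_fin] at h7
    exact h7.symm
  have hmain := red v f Nn A hA hrel Q (N + c1) hS (N + c1)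
    (fun j => (Finset.univ.filter (fun i => β i = j)).card) 0 1 hsum
    (isHomogeneous_one _ _) (by omega)
  rw [map_one, one_mul, ← hfib] at hmain
  obtain ⟨z, hz, hx⟩ := hmain
  exact ⟨z, hz, hx⟩

end Pool.Agent.H51.SFU
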